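import Mathlib

namespace Q3.AltTower

open Equiv Subgroup

/-- The `n`-th base set. -/
abbrev Y (n : ℕ) : Type := ZMod (n + 9)

/-- The product of the symmetric groups of the base sets. -/
abbrev PY : Type := ∀ n, Perm (Y n)

/-- Rotation in every coordinate. -/
def x : PY := fun _ => Equiv.addRight 1

/-- The transposition `(i, i+1)` in every coordinate. -/
def u (i : ℕ) : PY := fun _ => swap (i : ZMod _) ((i : ZMod _) + 1)

/-- The base group. -/
def B : Subgroup PY := closure {x, u 0}

lemma x_mem : x ∈ B := subset_closure (by simp)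

lemma u0_mem : u 0 ∈ B := subset_closure (by simp)

lemma conj_swap' {α : Type*} [DecidableEq α] (f : Perm α) (a b : α) :
    f * swap a b * f⁻¹ = swap (f a) (f b) := by
  rw [Equiv.mul_swap_eq_swap_mul, mul_assoc, mul_inv_cancel, mul_one]

lemma u_succ (i : ℕ) : u (i + 1) = x * u i * x⁻¹ := by
  funext n
  simp only [Pi.mul_apply, Pi.inv_apply, u, x, conj_swap']
  simp

lemma u_mem (i : ℕ) : u i ∈ B := by
  induction i with
  | zero => exact u0_mem
  | succ i ih =>
    rw [u_succ]
    exact mul_mem (mul_mem x_mem ih) (inv_mem x_mem)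

lemma exists_coord (n : ℕ) (τ : Perm (Y n)) : ∃ g ∈ B, g n = τ := by
  have key : ∀ τ ∈ Submonoid.closure (Set.range fun i : Fin (n + 8) =>
      swap i.castSucc i.succ), ∃ g ∈ B, g n = τ := by
    intro τ hτ
    induction hτ using Submonoid.closure_induction with
    | mem τ h =>
      obtain ⟨i, rfl⟩ := h
      refine ⟨u i, u_mem i, ?_⟩
      have h1 : ((i : ℕ) : Y n) = i.castSucc := by
        apply Fin.ext
        change (i : ℕ) % (n + 9) = i
        exact Nat.mod_eq_of_lt (by omega)
      have h2 : ((i : ℕ) : Y n) + 1 = i.succ := by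
        rw [← Nat.cast_succ]
        apply Fin.ext
        change ((i : ℕ) + 1) % (n + 9) = i + 1
        exact Nat.mod_eq_of_lt (by omega)
      exact congrArg₂ swap h1 h2
    | one => exact ⟨1, one_mem _, rfl⟩
    | mul a b _ _ ha hb =>
      obtain ⟨g, hg, rfl⟩ := ha
      obtain ⟨g', hg', rfl⟩ := hb
      exact ⟨g * g', mul_mem hg hg', rfl⟩
  apply key τ
  rw [Equiv.Perm.mclosure_swap_castSucc_succ]
  trivial

/-- Natural numbers below the modulus are determined by their classes. -/
lemma cast_inj {n a b : ℕ} (ha : a < n + 9) (hb : b < n + 9) (h : (a : Y n) = (b : Y n)) :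
    a = b := by
  rw [ZMod.natCast_eq_natCast_iff'] at h
  rwa [Nat.mod_eq_of_lt ha, Nat.mod_eq_of_lt hb] at h

lemma swap_comm_of {α : Type*} [DecidableEq α] {a b c d : α} (h1 : a ≠ c) (h2 : a ≠ d)
    (h3 : b ≠ c) (h4 : b ≠ d) : swap a b * swap c d = swap c d * swap a b := by
  rw [Equiv.mul_swap_eq_swap_mul, swap_apply_of_ne_of_ne h1.symm h3.symm,
    swap_apply_of_ne_of_ne h2.symm h4.symm]

/-- Far apart transpositions commute in large coordinates. -/
lemma u_comm {i j n : ℕ} (hij : i + 1 < j) (hj : j + 1 < n + 9) :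
    u i n * u j n = u j n * u i n := by
  simp only [u]
  have e : ∀ k : ℕ, (k : Y n) + 1 = ((k + 1 : ℕ) : Y n) := fun k => by push_cast; rfl
  rw [e, e]
  apply swap_comm_of
  · intro h; have := cast_inj (by omega) (by omega) h; omega
  · intro h; have := cast_inj (by omega) (by omega) h; omega
  · intro h; have := cast_inj (by omega) (by omega) h; omega
  · intro h; have := cast_inj (by omega) (by omega) h; omega

lemma u_mul_self (i : ℕ) : u i * u i = 1 := by
  funext n
  simp [u]

lemma u_inv (i : ℕ) : (u i)⁻¹ = u i := by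
  funext n
  simp [u]

/-- An element supported on coordinates `≤ n`, nontrivial at `n`. -/
def c (n : ℕ) : PY := u 0 * u (n + 8) * u 0 * u (n + 8)

lemma c_mem (n : ℕ) : c n ∈ B :=
  mul_mem (mul_mem (mul_mem (u_mem _) (u_mem _)) (u_mem _)) (u_mem _)

lemma c_of_lt {n j : ℕ} (h : n < j) : c n j = 1 := by
  have h1 : u 0 j * u (n + 8) j = u (n + 8) j * u 0 j := u_comm (by omega) (by omega)
  have h2 : u 0 j * u 0 j = 1 := congrFun (u_mul_self 0) j
  have h3 : u (n + 8) j * u (n + 8) j = 1 := congrFun (u_mul_self _) j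
  simp only [c, Pi.mul_apply]
  rw [h1, mul_assoc (u (n + 8) j), h2, mul_one, h3]

lemma c_self_ne (n : ℕ) : c n n ≠ 1 := by
  intro h
  have h0 := congrArg (fun τ : Perm (Y n) => τ 0) h
  have e1 : ((n + 8 : ℕ) : Y n) + 1 = 0 := by
    have := ZMod.natCast_self (n + 9)
    push_cast at this ⊢
    linear_combination this
  have n1 : (1 : Y n) ≠ 0 := by
    intro h
    have := cast_inj (n := n) (a := 1) (b := 0) (by omega) (by omega) (by simpa using h)
    omega
  have n2 : ((n + 8 : ℕ) : Y n) ≠ 0 := by
    intro h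
    have := cast_inj (n := n) (a := n + 8) (b := 0) (by omega) (by omega) (by simpa using h)
    omega
  have n3 : ((n + 8 : ℕ) : Y n) ≠ 1 := by
    intro h
    have := cast_inj (n := n) (a := n + 8) (b := 1) (by omega) (by omega) (by simpa using h)
    omega
  simp only [c, Pi.mul_apply, u, Perm.mul_apply, e1, Perm.one_apply] at h0
  rw [swap_apply_right, Nat.cast_zero, zero_add, swap_apply_of_ne_of_ne n2 n3,
    swap_apply_left, swap_apply_left] at h0
  exact n1 h0

lemma sign_u (i n : ℕ) : Perm.sign (u i n) = -1 := by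
  simp only [u]
  rw [Perm.sign_swap]
  intro h
  have h1 : (1 : Y n) = 0 := by linear_combination -h
  have := cast_inj (n := n) (a := 1) (b := 0) (by omega) (by omega) (by simpa using h1)
  omega

lemma sign_c (m n : ℕ) : Perm.sign (c m n) = 1 := by
  simp [c, sign_u]

/-- Any even permutation of one coordinate belongs to the base group. -/
lemma single_mem (n : ℕ) : ∀ σ ∈ alternatingGroup (Y n), Pi.mulSingle n σ ∈ B := by
  induction n using Nat.strong_induction_on with
  | _ n ih =>
    let r : PY := fun j => if j < n then c n j else 1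
    have hr : r ∈ B := by
      apply Submonoid.pi_mem_of_mulSingle_mem_aux (Finset.range n)
      · intro i hi
        simp only [Finset.mem_range] at hi
        simp [r, hi]
      · intro i hi
        simp only [Finset.mem_range] at hi
        simp only [r, hi, if_true]
        exact ih i hi _ (Perm.mem_alternatingGroup.mpr (sign_c n i))
    have h1 : Pi.mulSingle n (c n n) ∈ B := by
      have : Pi.mulSingle n (c n n) = c n * r⁻¹ := by
        funext j
        rcases lt_trichotomy j n with h | h | h
        · rw [Pi.mulSingle_eq_of_ne h.ne]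
          simp [r, h]
        · subst h
          simp [r]
        · rw [Pi.mulSingle_eq_of_ne h.ne', Pi.mul_apply, c_of_lt h]
          simp [r, h.not_gt]
      rw [this]
      exact mul_mem (c_mem n) (inv_mem hr)
    let S : Subgroup (Perm (Y n)) := B.comap (MonoidHom.mulSingle (fun n => Perm (Y n)) n)
    have hS : ∀ σ, σ ∈ S ↔ Pi.mulSingle n σ ∈ B := fun σ => Iff.rfl
    have hnorm : S.Normal := by
      constructor
      intro σ hσ τ
      obtain ⟨g, hg, rfl⟩ := exists_coord n τ
      rw [hS] at hσ ⊢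
      have : Pi.mulSingle n (g n * σ * (g n)⁻¹) = g * Pi.mulSingle n σ * g⁻¹ := by
        funext j
        by_cases h : j = n
        · subst h; simp
        · simp [Pi.mulSingle_eq_of_ne h]
      rw [this]
      exact mul_mem (mul_mem hg hσ) (inv_mem hg)
    have hnt : Nontrivial S := by
      refine ⟨⟨⟨c n n, h1⟩, 1, ?_⟩⟩
      intro h
      exact c_self_ne n (congrArg Subtype.val h)
    have hcard : 5 ≤ Nat.card (Y n) := by
      rw [Nat.card_eq_fintype_card, ZMod.card]
      omega
    intro σ hσ
    exact Perm.alternatingGroup_le_of_normal hcard hnt hσ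

/-- Finitely supported families of even permutations belong to the base group. -/
lemma finsupp_mem (N : ℕ) (g : PY) (h1 : ∀ n, N ≤ n → g n = 1)
    (h2 : ∀ n, Perm.sign (g n) = 1) : g ∈ B := by
  apply Submonoid.pi_mem_of_mulSingle_mem_aux (Finset.range N)
  · intro i hi
    simp only [Finset.mem_range, not_lt] at hi
    exact h1 i hi
  · intro i _
    exact single_mem i _ (Perm.mem_alternatingGroup.mpr (h2 i))

lemma u_braid (i : ℕ) : u i * u (i + 1) * u i = u (i + 1) * u i * u (i + 1) := by
  have h : u i * u (i + 1) * (u i)⁻¹ = u (i + 1) * u i * (u (i + 1))⁻¹ := by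
    funext n
    simp only [Pi.mul_apply, Pi.inv_apply, u]
    rw [conj_swap', conj_swap']
    have n1 : (1 : Y n) ≠ 0 := by
      intro h
      have := cast_inj (n := n) (a := 1) (b := 0) (by omega) (by omega) (by simpa using h)
      omega
    have n2 : (2 : Y n) ≠ 0 := by
      intro h
      have := cast_inj (n := n) (a := 2) (b := 0) (by omega) (by omega) (by simpa using h)
      omega
    push_cast
    rw [swap_apply_right, swap_apply_left, swap_apply_of_ne_of_ne, swap_apply_of_ne_of_ne]
    · intro h; apply n1; linear_combination -h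
    · intro h; apply n2; linear_combination -h
    · intro h; apply n2; linear_combination h
    · intro h; apply n1; linear_combination h
  rwa [u_inv, u_inv] at h

/-- The slices. -/
abbrev T (n : ℕ) : Type := ZMod (n + 1)

/-- The `n`-th finite set. -/
abbrev X (n : ℕ) : Type := T n × Y n

/-- The product of the symmetric groups of the sets `X n`. -/
abbrev PX : Type := ∀ n, Perm (X n)

/-- A family of permutations of the slices as a permutation. -/
def slices (n : ℕ) : (T n → Perm (Y n)) →* Perm (X n) where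
  toFun f := Equiv.prodCongrRight f
  map_one' := rfl
  map_mul' _ _ := rfl

/-- Let the base group act on all slices. -/
def io : PY →* PX where
  toFun g n := slices n (fun _ => g n)
  map_one' := rfl
  map_mul' _ _ := rfl

lemma slices_apply (n : ℕ) (f : T n → Perm (Y n)) (p : X n) :
    slices n f p = (p.1, f p.1 p.2) := rfl

lemma io_apply (g : PY) (n : ℕ) : io g n = slices n (fun _ => g n) := rfl

/-- Rotate the slices. -/
def z : PX := fun _ => Equiv.prodCongr (Equiv.addRight 1) (Equiv.refl _)

lemma z_apply (n : ℕ) (p : X n) : z n p = (p.1 + 1, p.2) := rfl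

/-- The small involution, living on the slice `0`. -/
def b : PX := fun n => slices n (Pi.mulSingle 0 (u 0 n * u 2 n))

/-- The large involution, living on all slices. -/
def a : PX := io (u 0 * u 2)

/-- The group. -/
def G : Subgroup PX := closure {io x, io (u 0), z, b}

lemma io_mem {g : PY} (hg : g ∈ B) : io g ∈ G := by
  have h : B ≤ G.comap io := by
    rw [B, closure_le]
    rintro _ (rfl | rfl)
    · exact subset_closure (by simp)
    · exact subset_closure (by simp)
  exact h hg

lemma z_mem : z ∈ G := subset_closure (by simp)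

lemma b_mem : b ∈ G := subset_closure (by simp)

lemma a_mem : a ∈ G := io_mem (mul_mem (u_mem _) (u_mem _))

/-- One slice of one coordinate. -/
def slice (n : ℕ) (t : T n) : Perm (Y n) →* PX :=
  (MonoidHom.mulSingle (fun n => Perm (X n)) n).comp
    ((slices n).comp (MonoidHom.mulSingle (fun _ => Perm (Y n)) t))

lemma slice_apply (n : ℕ) (t : T n) (σ : Perm (Y n)) :
    slice n t σ = Pi.mulSingle n (slices n (Pi.mulSingle t σ)) := rfl

lemma conj_slice (g : PY) (n : ℕ) (t : T n) (σ : Perm (Y n)) :
    io g * slice n t σ * (io g)⁻¹ = slice n t (g n * σ * (g n)⁻¹) := by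
  rw [slice_apply, slice_apply]
  funext j
  by_cases h : j = n
  · subst h
    simp only [Pi.mul_apply, Pi.inv_apply, Pi.mulSingle_eq_same, io_apply]
    rw [← map_inv, ← map_mul, ← map_mul]
    congr 1
    funext s
    by_cases hs : s = t
    · subst hs; simp
    · simp [Pi.mulSingle_eq_of_ne hs]
  · simp [Pi.mulSingle_eq_of_ne h]

lemma conj_z (n : ℕ) (t : T n) (σ : Perm (Y n)) :
    z * slice n t σ * z⁻¹ = slice n (t + 1) σ := by
  rw [slice_apply, slice_apply, mul_inv_eq_iff_eq_mul]
  funext j
  by_cases h : j = n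
  · subst h
    apply Equiv.ext
    rintro ⟨s, v⟩
    simp only [Pi.mul_apply, Perm.mul_apply, Pi.mulSingle_eq_same, slices_apply, z_apply]
    by_cases hs : s = t
    · subst hs; simp
    · rw [Pi.mulSingle_eq_of_ne hs, Pi.mulSingle_eq_of_ne (fun h => hs (add_right_cancel h))]
  · simp [Pi.mulSingle_eq_of_ne h]

/-- The property of a group used to kill the large involution. -/
def Compactish (Γ : Type*) [Group Γ] : Prop :=
  ∀ γ : ℕ → Γ, ∃ i j, i < j ∧ ((γ i * (γ j)⁻¹) ^ 2 = 1 → γ i * (γ j)⁻¹ = 1)

section kill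

variable {K : Subgroup PX} (hKG : ∀ g ∈ G, ∀ k ∈ K, g * k * g⁻¹ ∈ K) (hb : b ∈ K)

include hKG in
lemma slice_normal (n : ℕ) (t : T n) : (K.comap (slice n t)).Normal := by
  constructor
  intro σ hσ τ
  obtain ⟨g, hg, rfl⟩ := exists_coord n τ
  rw [Subgroup.mem_comap] at hσ ⊢
  rw [← conj_slice]
  exact hKG _ (io_mem hg) _ hσ

lemma card_Y (n : ℕ) : 5 ≤ Nat.card (Y n) := by
  rw [Nat.card_eq_fintype_card, ZMod.card]
  omega

lemma io_single (n : ℕ) (σ : Perm (Y n)) :
    io (Pi.mulSingle n σ) = Pi.mulSingle n (slices n (fun _ => σ)) := by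
  funext j
  rw [io_apply]
  by_cases h : j = n
  · subst h; simp
  · rw [Pi.mulSingle_eq_of_ne h, Pi.mulSingle_eq_of_ne h]
    rfl

lemma b_apply (n : ℕ) : b n = slices n (Pi.mulSingle 0 (u 0 n * u 2 n)) := rfl

lemma comm_b (n : ℕ) (σ : Perm (Y n)) :
    b * io (Pi.mulSingle n σ) * b⁻¹ * (io (Pi.mulSingle n σ))⁻¹
      = slice n 0 ((u 0 n * u 2 n) * σ * (u 0 n * u 2 n)⁻¹ * σ⁻¹) := by
  rw [slice_apply, io_single]
  funext j
  by_cases h : j = n
  · subst h
    rw [Pi.mul_apply, Pi.mul_apply, Pi.mul_apply, Pi.inv_apply, Pi.inv_apply,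
      Pi.mulSingle_eq_same, Pi.mulSingle_eq_same, b_apply]
    generalize u 0 j * u 2 j = p0
    rw [← map_inv, ← map_inv, ← map_mul, ← map_mul, ← map_mul]
    congr 1
    funext s
    by_cases hs : s = 0
    · subst hs
      rw [Pi.mul_apply, Pi.mul_apply, Pi.mul_apply, Pi.inv_apply, Pi.inv_apply,
        Pi.mulSingle_eq_same, Pi.mulSingle_eq_same]
    · rw [Pi.mul_apply, Pi.mul_apply, Pi.mul_apply, Pi.inv_apply, Pi.inv_apply,
        Pi.mulSingle_eq_of_ne hs, Pi.mulSingle_eq_of_ne hs, one_mul, inv_one, mul_one,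
        mul_inv_cancel]
  · rw [Pi.mul_apply, Pi.mul_apply, Pi.mul_apply, Pi.inv_apply, Pi.inv_apply,
      Pi.mulSingle_eq_of_ne h, Pi.mulSingle_eq_of_ne h, inv_one, mul_one, mul_one,
      mul_inv_cancel]

include hKG hb in
lemma slice_zero (n : ℕ) : alternatingGroup (Y n) ≤ K.comap (slice n 0) := by
  have := slice_normal hKG n 0
  set p0 : Perm (Y n) := u 0 n * u 2 n with hp0
  set σ : Perm (Y n) := u 1 n * u 4 n with hσ
  have hσalt : σ ∈ alternatingGroup (Y n) := by
    rw [Perm.mem_alternatingGroup, hσ, Perm.sign_mul, sign_u, sign_u]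
    norm_num
  have key := comm_b n σ
  have hmem : slice n 0 (p0 * σ * p0⁻¹ * σ⁻¹) ∈ K := by
    rw [← key]
    have h1 := hKG _ (io_mem (single_mem n σ hσalt)) _ (inv_mem hb)
    have h2 := mul_mem hb h1
    convert h2 using 1
    group
  have hne : p0 * σ * p0⁻¹ * σ⁻¹ ≠ 1 := by
    intro h
    have h1 : p0 * σ = σ * p0 := by
      have := mul_inv_eq_one.mp h
      have h2 : p0 * σ * p0⁻¹ * p0 = σ * p0 := by rw [this]
      simpa using h2
    have h2 := congrArg (fun τ : Perm (Y n) => τ 0) h1
    have ne : ∀ i j : ℕ, i < 9 → j < 9 → i ≠ j → (i : Y n) ≠ (j : Y n) := by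
      intro i j hi hj hij h
      exact hij (cast_inj (by omega) (by omega) h)
    have ne01 := ne 0 1 (by norm_num) (by norm_num) (by norm_num)
    have ne02 := ne 0 2 (by norm_num) (by norm_num) (by norm_num)
    have ne03 := ne 0 3 (by norm_num) (by norm_num) (by norm_num)
    have ne04 := ne 0 4 (by norm_num) (by norm_num) (by norm_num)
    have ne05 := ne 0 5 (by norm_num) (by norm_num) (by norm_num)
    have ne12 := ne 1 2 (by norm_num) (by norm_num) (by norm_num)
    have ne13 := ne 1 3 (by norm_num) (by norm_num) (by norm_num)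
    have ne14 := ne 1 4 (by norm_num) (by norm_num) (by norm_num)
    have ne15 := ne 1 5 (by norm_num) (by norm_num) (by norm_num)
    have e : ∀ k : ℕ, (k : Y n) + 1 = ((k + 1 : ℕ) : Y n) := fun k => by push_cast; rfl
    simp only [hp0, hσ, u, Perm.mul_apply, e] at h2
    have z0 : (0 : Y n) = ((0 : ℕ) : Y n) := by simp
    rw [z0, swap_apply_of_ne_of_ne ne04 ne05, swap_apply_of_ne_of_ne ne01 ne02,
      swap_apply_of_ne_of_ne ne02 ne03, swap_apply_left, swap_apply_of_ne_of_ne ne14 ne15,
      swap_apply_left] at h2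
    exact ne12 h2
  have hnt : Nontrivial (K.comap (slice n 0)) := by
    refine ⟨⟨⟨_, hmem⟩, 1, ?_⟩⟩
    intro h
    exact hne (congrArg Subtype.val h)
  exact Perm.alternatingGroup_le_of_normal (card_Y n) hnt

include hKG hb in
lemma slice_all (n : ℕ) (t : T n) : alternatingGroup (Y n) ≤ K.comap (slice n t) := by
  have h : ∀ k : ℕ, alternatingGroup (Y n) ≤ K.comap (slice n (k : T n)) := by
    intro k
    induction k with
    | zero =>
      rw [Nat.cast_zero]
      exact slice_zero hKG hb n
    | succ k ih =>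
      intro σ hσ
      have h1 := hKG z z_mem _ (ih hσ)
      rw [conj_z] at h1
      rw [Subgroup.mem_comap]
      push_cast
      exact h1
  have := h t.val
  rwa [ZMod.natCast_zmod_val] at this

include hKG hb in
lemma single_io_mem (n : ℕ) (σ : Perm (Y n)) (hσ : σ ∈ alternatingGroup (Y n)) :
    io (Pi.mulSingle n σ) ∈ K := by
  rw [io_single]
  let S : Subgroup (T n → Perm (Y n)) :=
    K.comap ((MonoidHom.mulSingle (fun n => Perm (X n)) n).comp (slices n))
  have hS : (fun _ => σ : T n → Perm (Y n)) ∈ S := by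
    apply Subgroup.pi_mem_of_mulSingle_mem
    intro t
    exact slice_all hKG hb n t hσ
  exact hS

include hKG hb in
lemma finsupp_io_mem (N : ℕ) (g : PY) (h1 : ∀ n, N ≤ n → g n = 1)
    (h2 : ∀ n, Perm.sign (g n) = 1) : io g ∈ K := by
  have : g ∈ K.comap io := by
    apply Submonoid.pi_mem_of_mulSingle_mem_aux (Finset.range N)
    · intro i hi
      simp only [Finset.mem_range, not_lt] at hi
      exact h1 i hi
    · intro i _
      exact single_io_mem hKG hb i _ (Perm.mem_alternatingGroup.mpr (h2 i))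
  exact this

include hKG hb in
lemma mem_of_equiv (N : ℕ) (g h : PY) (hg : io g ∈ K) (h1 : ∀ n, N ≤ n → g n = h n)
    (h2 : ∀ n, Perm.sign (g n) = Perm.sign (h n)) : io h ∈ K := by
  have : io (g⁻¹ * h) ∈ K := by
    apply finsupp_io_mem hKG hb N
    · intro n hn
      rw [Pi.mul_apply, Pi.inv_apply, h1 n hn, inv_mul_cancel]
    · intro n
      rw [Pi.mul_apply, Pi.inv_apply, Perm.sign_mul, Perm.sign_inv, h2 n]
      exact Int.units_mul_self _
  have h3 := mul_mem hg this
  rwa [← map_mul, mul_inv_cancel_left] at h3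

include hKG hb in
/-- From one product of two far apart transpositions to the large involution. -/
lemma a_mem_of (s t : ℕ) (hst : s + 3 ≤ t) (hk : io (u s * u t) ∈ K) : a ∈ K := by
  have hconj : ∀ g ∈ B, ∀ k : PY, io k ∈ K → io (g * k * g⁻¹) ∈ K := by
    intro g hg k hk
    rw [map_mul, map_mul, map_inv]
    exact hKG _ (io_mem hg) _ hk
  have h1 : io (u s * u t * (u (t + 1) * (u s * u t) * (u (t + 1))⁻¹)) ∈ K := by
    rw [map_mul]
    exact mul_mem hk (hconj _ (u_mem _) _ hk)
  have h2 : io (u (t + 1) * u t) ∈ K := by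
    apply mem_of_equiv hKG hb (t + 2) _ _ h1
    · intro n hn
      have c1 : u s n * u t n = u t n * u s n := u_comm (by omega) (by omega)
      have c2 : u s n * u (t + 1) n = u (t + 1) n * u s n := u_comm (by omega) (by omega)
      have s1 : u s n * u s n = 1 := congrFun (u_mul_self s) n
      have s2 : u (t + 1) n * u (t + 1) n = 1 := congrFun (u_mul_self (t + 1)) n
      have br : u t n * u (t + 1) n * u t n = u (t + 1) n * u t n * u (t + 1) n :=
        congrFun (u_braid t) n
      simp only [Pi.mul_apply, u_inv]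
      calc u s n * u t n * (u (t + 1) n * (u s n * u t n) * u (t + 1) n)
          = u t n * (u s n * u (t + 1) n) * (u s n * u t n) * u (t + 1) n := by
            rw [c1]; group
        _ = u t n * u (t + 1) n * (u s n * u s n) * u t n * u (t + 1) n := by
            rw [c2]; group
        _ = (u t n * u (t + 1) n * u t n) * u (t + 1) n := by
            rw [s1]; group
        _ = u (t + 1) n * u t n * (u (t + 1) n * u (t + 1) n) := by
            rw [br]; group
        _ = u (t + 1) n * u t n := by rw [s2, mul_one]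
    · intro n
      simp [sign_u]
  have hdown : ∀ r : ℕ, io (u (r + 1 + 1) * u (r + 1)) ∈ K → io (u (r + 1) * u r) ∈ K := by
    intro r hr
    have := hconj x⁻¹ (inv_mem x_mem) _ hr
    rw [u_succ (r + 1), u_succ r] at this
    convert this using 2
    rw [u_succ r]
    group
  have h3 : ∀ r : ℕ, io (u (r + 1) * u r) ∈ K → io (u 1 * u 0) ∈ K := by
    intro r
    induction r with
    | zero => exact fun h => h
    | succ r ih => exact fun h => ih (hdown r h)
  have h4 : io (u 1 * u 0) ∈ K := h3 t h2
  have h5 : io (u 2 * u 1) ∈ K := by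
    have := hconj x x_mem _ h4
    convert this using 2
    rw [u_succ 1, u_succ 0]
    group
  have h6 : io (u 2 * u 0) ∈ K := by
    have := mul_mem h5 h4
    rw [← map_mul] at this
    convert this using 2
    rw [mul_assoc, ← mul_assoc (u 1), u_mul_self, one_mul]
  have h7 := inv_mem h6
  rw [← map_inv, mul_inv_rev, u_inv, u_inv] at h7
  exact h7

end kill

/-- In a quotient with the property `Compactish`, killing the small involution kills the large
one. -/
theorem kill {Γ : Type*} [Group Γ] (hΓ : Compactish Γ) (φ : G →* Γ) (hb : φ ⟨b, b_mem⟩ = 1) :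
    φ ⟨a, a_mem⟩ = 1 := by
  set K : Subgroup PX := φ.ker.map G.subtype with hK
  have hmem : ∀ (g : PX) (hg : g ∈ G), g ∈ K ↔ φ ⟨g, hg⟩ = 1 := by
    intro g hg
    rw [hK, Subgroup.mem_map]
    constructor
    · rintro ⟨⟨g', hg'⟩, h1, h2⟩
      have : g' = g := h2
      subst this
      exact h1
    · intro h
      exact ⟨⟨g, hg⟩, h, rfl⟩
  have hle : K ≤ G := by
    rintro _ ⟨⟨g, hg⟩, _, rfl⟩
    exact hg
  have hKG : ∀ g ∈ G, ∀ k ∈ K, g * k * g⁻¹ ∈ K := by
    intro g hg k hk
    have hkG := hle hk
    rw [hmem _ (mul_mem (mul_mem hg hkG) (inv_mem hg))]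
    have h1 := (hmem k hkG).mp hk
    have : (⟨g * k * g⁻¹, mul_mem (mul_mem hg hkG) (inv_mem hg)⟩ : G)
      = ⟨g, hg⟩ * ⟨k, hkG⟩ * ⟨g, hg⟩⁻¹ := rfl
    rw [this, map_mul, map_mul, h1, mul_one, ← map_mul, mul_inv_cancel, map_one]
  have hbK : b ∈ K := (hmem b b_mem).mpr hb
  obtain ⟨i, j, hij, hprop⟩ := hΓ (fun i => φ ⟨io (u (3 * i)), io_mem (u_mem _)⟩)
  rw [← hmem]
  apply a_mem_of hKG hbK (3 * i) (3 * j) (by omega)
  have hmemG : io (u (3 * i) * u (3 * j)) ∈ G := io_mem (mul_mem (u_mem _) (u_mem _))
  have e : φ ⟨io (u (3 * i)), io_mem (u_mem _)⟩ * (φ ⟨io (u (3 * j)), io_mem (u_mem _)⟩)⁻¹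
      = φ ⟨io (u (3 * i) * u (3 * j)), hmemG⟩ := by
    rw [← map_inv, ← map_mul]
    apply congrArg φ
    apply Subtype.ext
    change io (u (3 * i)) * (io (u (3 * j)))⁻¹ = io (u (3 * i) * u (3 * j))
    rw [← map_inv io, ← map_mul io, u_inv]
  rw [hmem _ hmemG, ← e]
  apply hprop
  rw [e, ← map_pow]
  have hsq : io ((u (3 * i) * u (3 * j)) ^ 2) ∈ K := by
    apply finsupp_io_mem hKG hbK (3 * j + 2)
    · intro n hn
      have c1 : u (3 * i) n * u (3 * j) n = u (3 * j) n * u (3 * i) n :=
        u_comm (by omega) (by omega)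
      have s1 : u (3 * i) n * u (3 * i) n = 1 := congrFun (u_mul_self (3 * i)) n
      have s2 : u (3 * j) n * u (3 * j) n = 1 := congrFun (u_mul_self (3 * j)) n
      rw [Pi.pow_apply, Pi.mul_apply, sq]
      calc u (3 * i) n * u (3 * j) n * (u (3 * i) n * u (3 * j) n)
          = u (3 * i) n * (u (3 * j) n * u (3 * i) n) * u (3 * j) n := by group
        _ = (u (3 * i) n * u (3 * i) n) * (u (3 * j) n * u (3 * j) n) := by
            rw [← c1]; group
        _ = 1 := by rw [s1, s2, mul_one]
    · intro n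
      simp [sign_u]
  rw [map_pow] at hsq
  exact (hmem _ (pow_mem hmemG 2)).mp hsq

end Q3.AltTower
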