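import Mathlib
import Pool.Agent.Q3.AltTower

namespace Q3.AltTower

open Equiv

/-- The number of points moved by a permutation. -/
def moved {α : Type} [Fintype α] [DecidableEq α] (σ : Perm α) : ℕ :=
  ∑ x, if σ x = x then 0 else 1

lemma moved_eq_zero {α : Type} [Fintype α] [DecidableEq α] {σ : Perm α} (h : moved σ = 0) :
    σ = 1 := by
  ext x
  have := Finset.sum_eq_zero_iff.mp h x (Finset.mem_univ x)
  by_contra hx
  have hx' : ¬ σ x = x := hx
  rw [if_neg hx'] at this
  exact one_ne_zero this

lemma moved_one {α : Type} [Fintype α] [DecidableEq α] : moved (1 : Perm α) = 0 := by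
  simp [moved]

lemma moved_le {α : Type} [Fintype α] [DecidableEq α] (σ : Perm α) :
    moved σ ≤ Fintype.card α := by
  unfold moved
  calc _ ≤ ∑ _x : α, 1 := Finset.sum_le_sum (fun x _ => by split_ifs <;> omega)
    _ = _ := by simp

lemma moved_conj {α β : Type} [Fintype α] [DecidableEq α] [Fintype β] [DecidableEq β]
    (e : α ≃ β) (σ : Perm α) : moved (e.permCongr σ) = moved σ := by
  unfold moved
  rw [← e.sum_comp]
  apply Finset.sum_congr rfl
  intro x _
  simp

lemma compactish_perm (m : ℕ) : Compactish (Perm (Fin m)) := by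
  intro γ
  obtain ⟨i, j, hij, h⟩ := Finite.exists_ne_map_eq_of_infinite γ
  rcases lt_or_gt_of_ne hij with h1 | h1
  · exact ⟨i, j, h1, fun _ => by rw [h, mul_inv_cancel]⟩
  · exact ⟨j, i, h1, fun _ => by rw [h, mul_inv_cancel]⟩

lemma closure_pair_finite {Γ : Type*} [Group Γ] (α β : Γ) (h1 : α * α = 1) (h2 : β * β = 1)
    (h3 : α * β = β * α) : Finite (Subgroup.closure {α, β}) := by
  have i1 : α⁻¹ = α := inv_eq_of_mul_eq_one_left h1
  have i2 : β⁻¹ = β := inv_eq_of_mul_eq_one_left h2
  have step : ∀ x ∈ ({α, β} : Set Γ), ∀ y, (y = 1 ∨ y = α ∨ y = β ∨ y = α * β) →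
      (x * y = 1 ∨ x * y = α ∨ x * y = β ∨ x * y = α * β) := by
    rintro x (rfl | rfl) y (rfl | rfl | rfl | rfl)
    · simp
    · exact Or.inl h1
    · simp
    · exact Or.inr (Or.inr (Or.inl (by rw [← mul_assoc, h1, one_mul])))
    · simp
    · exact Or.inr (Or.inr (Or.inr h3.symm))
    · exact Or.inl h2
    · exact Or.inr (Or.inl (by rw [h3, ← mul_assoc, h2, one_mul]))
  have hsub : ((Subgroup.closure {α, β} : Subgroup Γ) : Set Γ) ⊆ {1, α, β, α * β} := by
    intro y hy
    have : y = 1 ∨ y = α ∨ y = β ∨ y = α * β := by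
      refine Subgroup.closure_induction_left (p := fun y _ => y = 1 ∨ y = α ∨ y = β ∨ y = α * β)
        (Or.inl rfl) ?_ ?_ hy
      · intro x hx y _ hy
        exact step x hx y hy
      · intro x hx y _ hy
        have : x⁻¹ = x := by
          rcases hx with rfl | rfl
          · exact i1
          · exact i2
        rw [this]
        exact step x hx y hy
    simpa using this
  exact Set.Finite.to_subtype (Set.Finite.subset (by simp) hsub)

/-- The two commuting involutions as elements of the group. -/
def aG : G := ⟨a, a_mem⟩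

/-- The small involution as an element of the group. -/
def bG : G := ⟨b, b_mem⟩

lemma a_apply (n : ℕ) : a n = slices n (fun _ => u 0 n * u 2 n) := rfl

lemma p0_sq (n : ℕ) : (u 0 n * u 2 n) * (u 0 n * u 2 n) = 1 := by
  have c1 : u 0 n * u 2 n = u 2 n * u 0 n := u_comm (by omega) (by omega)
  have s1 : u 0 n * u 0 n = 1 := congrFun (u_mul_self 0) n
  have s2 : u 2 n * u 2 n = 1 := congrFun (u_mul_self 2) n
  calc u 0 n * u 2 n * (u 0 n * u 2 n) = u 0 n * (u 2 n * u 0 n) * u 2 n := by group
    _ = (u 0 n * u 0 n) * (u 2 n * u 2 n) := by rw [← c1]; group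
    _ = 1 := by rw [s1, s2, mul_one]

lemma p0_ne (n : ℕ) : u 0 n * u 2 n ≠ 1 := by
  intro h
  have h1 : u 0 n = u 2 n := by
    have s2 : u 2 n * u 2 n = 1 := congrFun (u_mul_self 2) n
    have := congrArg (· * u 2 n) h
    simpa [mul_assoc, s2] using this
  have h2 := congrArg (fun τ : Perm (Y n) => τ 0) h1
  simp only [u, Nat.cast_zero, swap_apply_left, zero_add] at h2
  have ne : ∀ i j : ℕ, i < 9 → j < 9 → i ≠ j → (i : Y n) ≠ (j : Y n) := by
    intro i j hi hj hij h
    exact hij (cast_inj (by omega) (by omega) h)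
  have n1 : (0 : Y n) ≠ ((2 : ℕ) : Y n) := by
    have := ne 0 2 (by norm_num) (by norm_num) (by norm_num)
    rwa [Nat.cast_zero] at this
  have n2 : (0 : Y n) ≠ ((2 : ℕ) : Y n) + 1 := by
    have := ne 0 3 (by norm_num) (by norm_num) (by norm_num)
    intro h
    apply this
    rw [Nat.cast_zero, h]
    push_cast
    ring
  have n3 : (1 : Y n) ≠ 0 := by
    have := ne 1 0 (by norm_num) (by norm_num) (by norm_num)
    rwa [Nat.cast_zero, Nat.cast_one] at this
  rw [swap_apply_of_ne_of_ne n1 n2] at h2
  exact n3 h2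

lemma aG_sq : aG * aG = 1 := by
  apply Subtype.ext
  funext n
  change a n * a n = 1
  rw [a_apply, ← map_mul]
  have : ((fun _ => u 0 n * u 2 n : T n → Perm (Y n)) * fun _ => u 0 n * u 2 n) = 1 := by
    funext t
    exact p0_sq n
  rw [this, map_one]

lemma bG_sq : bG * bG = 1 := by
  apply Subtype.ext
  funext n
  change b n * b n = 1
  rw [b_apply, ← map_mul, ← Pi.mulSingle_mul, p0_sq, Pi.mulSingle_one, map_one]

lemma ab_comm : aG * bG = bG * aG := by
  apply Subtype.ext
  funext n
  change a n * b n = b n * a n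
  rw [a_apply, b_apply, ← map_mul, ← map_mul]
  congr 1
  funext t
  by_cases ht : t = 0
  · subst ht; simp
  · simp [Pi.mulSingle_eq_of_ne ht]

/-- The finite subgroup generated by the two commuting involutions. -/
def H : Subgroup G := Subgroup.closure {aG, bG}

lemma H_finite : Finite H := closure_pair_finite aG bG aG_sq bG_sq ab_comm

lemma G_fg : Group.FG G := by
  unfold G
  exact Group.closure_finite_fg _

lemma moved_slices (n : ℕ) (f : T n → Perm (Y n)) :
    moved (slices n f) = ∑ t, moved (f t) := by
  unfold moved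
  rw [Fintype.sum_prod_type]
  apply Finset.sum_congr rfl
  intro t _
  apply Finset.sum_congr rfl
  intro v _
  simp [slices_apply]

lemma moved_a (n : ℕ) : moved (a n) = (n + 1) * moved (u 0 n * u 2 n) := by
  rw [a_apply, moved_slices]
  simp [ZMod.card]

lemma moved_b (n : ℕ) : moved (b n) = moved (u 0 n * u 2 n) := by
  rw [b_apply, moved_slices, Finset.sum_eq_single 0]
  · simp
  · intro t _ ht
    rw [Pi.mulSingle_eq_of_ne ht, moved_one]
  · simp

/-- The `n`-th coordinate as an action on a standard finite set. -/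
noncomputable def coord (n : ℕ) : G →* Perm (Fin (Fintype.card (X n))) :=
  ((Fintype.equivFin (X n)).permCongrHom.toMonoidHom).comp
    ((Pi.evalMonoidHom (fun n => Perm (X n)) n).comp G.subtype)

lemma moved_coord (n : ℕ) (g : G) : moved (coord n g) = moved ((g : PX) n) := by
  have : coord n g = (Fintype.equivFin (X n)).permCongr ((g : PX) n) := rfl
  rw [this, moved_conj]

/-- Moved points add up over the disjoint union. -/
lemma moved_sum {k n : ℕ} {m r : Fin k → ℕ} (σ : Perm (Fin n)) (τ : ∀ i, Perm (Fin (m i)))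
    (e : Fin n ≃ (i : Fin k) × (Fin (r i) × Fin (m i)))
    (he : ∀ x, e (σ x) = ⟨(e x).1, (e x).2.1, τ (e x).1 (e x).2.2⟩) :
    moved σ = ∑ i, r i * moved (τ i) := by
  have h1 : moved σ = ∑ s : (i : Fin k) × (Fin (r i) × Fin (m i)),
      if τ s.1 s.2.2 = s.2.2 then 0 else 1 := by
    unfold moved
    rw [← e.sum_comp]
    apply Finset.sum_congr rfl
    intro x _
    have : σ x = x ↔ τ (e x).1 (e x).2.2 = (e x).2.2 := by
      rw [← e.injective.eq_iff, he]
      constructor
      · intro h
        generalize e x = s at h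
        rcases s with ⟨i, c, y⟩
        simpa using h
      · intro h
        generalize e x = s at h
        rcases s with ⟨i, c, y⟩
        simpa using h
    simp only [this]
  rw [h1, Fintype.sum_sigma]
  apply Finset.sum_congr rfl
  intro i _
  rw [Fintype.sum_prod_type]
  calc _ = ∑ _c : Fin (r i), moved (τ i) := by
        apply Finset.sum_congr rfl
        intro c _
        unfold moved
        apply Finset.sum_congr rfl
        intro y _
        by_cases hy : τ i y = y <;> simp [hy]
    _ = _ := by rw [Finset.sum_const, Finset.card_univ, Fintype.card_fin, smul_eq_mul]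

end Q3.AltTower
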