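import Mathlib

namespace Q3.BurauCore

open Matrix Finset

variable {n : ℕ}

/-- `1 + 2 e_i (e_j - e_i)^T`: row `i` is `-e_i + 2 e_j`. -/
def rMat (i j : Fin n) : Matrix (Fin n) (Fin n) ℤ :=
  fun a b => if a = i then (if b = i then -1 else if b = j then 2 else 0)
    else if a = b then 1 else 0

lemma mul_rMat (M : Matrix (Fin n) (Fin n) ℤ) {i j : Fin n} (hij : i ≠ j) (a b : Fin n) :
    (M * rMat i j) a b = if b = i then - M a i else if b = j then M a j + 2 * M a i
      else M a b := by
  rw [Matrix.mul_apply]
  by_cases hbi : b = i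
  · subst hbi
    rw [Finset.sum_eq_single b]
    · simp [rMat]
    · intro c _ hc
      simp [rMat, hc]
    · simp
  · by_cases hbj : b = j
    · subst hbj
      rw [if_neg hbi, if_pos rfl]
      rw [Finset.sum_eq_add i b hij]
      · simp only [rMat, if_neg hbi, if_pos]
        ring
      · intro c _ hc
        simp [rMat, hc.1, hc.2]
      · simp
      · simp
    · rw [if_neg hbi, if_neg hbj, Finset.sum_eq_single b]
      · simp [rMat, hbi]
      · intro c _ hc
        by_cases hci : c = i
        · simp [rMat, hci, hbi, hbj]
        · simp [rMat, hci, hc]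
      · simp

lemma rMat_mul_self {i j : Fin n} (hij : i ≠ j) : rMat i j * rMat i j = 1 := by
  ext a b
  rw [mul_rMat _ hij]
  by_cases ha : a = i
  · subst ha
    by_cases hb : b = a
    · subst hb; simp [rMat]
    · by_cases hb' : b = j
      · subst hb'; simp [rMat, hb, Ne.symm hb]
      · simp [rMat, hb, hb', Ne.symm hb]
  · by_cases hb : b = i
    · subst hb; simp [rMat, ha]
    · by_cases hb' : b = j
      · subst hb'; simp [rMat, ha, hb, Matrix.one_apply]
      · simp [rMat, ha, hb, hb', Matrix.one_apply]

/-- The standing hypotheses: invertible, row sums one, congruent to the identity mod 2. -/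
structure Good (M : Matrix (Fin n) (Fin n) ℤ) : Prop where
  inv : ∃ N : Matrix (Fin n) (Fin n) ℤ, M * N = 1
  row : ∀ a, ∑ b, M a b = 1
  off : ∀ a b, a ≠ b → (2 : ℤ) ∣ M a b
  diag : ∀ a, ¬ (2 : ℤ) ∣ M a a

lemma Good.mul_rMat {M : Matrix (Fin n) (Fin n) ℤ} (hM : Good M) {i j : Fin n} (hij : i ≠ j) :
    Good (M * rMat i j) := by
  refine ⟨?_, ?_, ?_, ?_⟩
  · obtain ⟨N, hN⟩ := hM.inv
    refine ⟨rMat i j * N, ?_⟩
    rw [Matrix.mul_assoc, ← Matrix.mul_assoc (rMat i j), rMat_mul_self hij, Matrix.one_mul, hN]
  · intro a
    have h1 : ∀ b, (M * rMat i j) a b = M a b + ((if b = i then - 2 * M a i else 0)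
        + if b = j then 2 * M a i else 0) := by
      intro b
      rw [BurauCore.mul_rMat M hij]
      by_cases hbi : b = i
      · subst hbi
        simp [hij]; ring
      · by_cases hbj : b = j
        · subst hbj
          simp [hbi]
        · simp [hbi, hbj]
    simp only [h1, Finset.sum_add_distrib, hM.row a]
    simp
  · intro a b hab
    rw [BurauCore.mul_rMat M hij]
    split_ifs with h1 h2
    · subst h1
      exact (hM.off a b hab).neg_right
    · subst h2
      exact dvd_add (hM.off a b hab) (dvd_mul_right _ _)
    · exact hM.off a b hab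
  · intro a
    rw [BurauCore.mul_rMat M hij]
    split_ifs with h1 h2
    · subst h1
      rw [dvd_neg]
      exact hM.diag a
    · subst h2
      intro h
      exact hM.diag a ((Int.dvd_add_left (dvd_mul_right _ _)).mp h)
    · exact hM.diag a

/-- Rows `k, k+1, ...` of `M` are those of the identity. -/
def FixedAbove (k : ℕ) (M : Matrix (Fin n) (Fin n) ℤ) : Prop :=
  ∀ l : Fin n, k ≤ (l : ℕ) → ∀ b, M l b = if b = l then 1 else 0

lemma FixedAbove.mul_rMat {k : ℕ} {M : Matrix (Fin n) (Fin n) ℤ} (hM : FixedAbove k M)
    {i j : Fin n} (hij : i ≠ j) (hi : (i : ℕ) < k) : FixedAbove k (M * rMat i j) := by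
  intro l hl b
  have hli : i ≠ l := by
    rintro rfl
    omega
  have h0 : M l i = 0 := by rw [hM l hl i, if_neg hli]
  rw [BurauCore.mul_rMat M hij]
  split_ifs with h1 h2 h3 h4 h5
  · exact absurd (h1.symm.trans h2) hli
  · simp [h0]
  · subst h3; subst h4; rw [h0, hM _ hl, if_pos rfl]; ring
  · subst h3; rw [h0, hM _ hl, if_neg h4]; ring
  · rw [hM _ hl, if_pos h5]
  · rw [hM _ hl, if_neg h5]

variable {T : Submonoid (Matrix (Fin n) (Fin n) ℤ)}

lemma mem_of_mul (hT : ∀ i j : Fin n, i ≠ j → rMat i j ∈ T) {M : Matrix (Fin n) (Fin n) ℤ}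
    {i j : Fin n} (hij : i ≠ j) (h : M * rMat i j ∈ T) : M ∈ T := by
  have := T.mul_mem h (hT i j hij)
  rwa [Matrix.mul_assoc, rMat_mul_self hij, Matrix.mul_one] at this

lemma clear_row (hT : ∀ i j : Fin n, i ≠ j → rMat i j ∈ T) (m : Fin n)
    (IH : ∀ M, Good M → FixedAbove (m : ℕ) M → M ∈ T) :
    ∀ (N : ℕ) (M : Matrix (Fin n) (Fin n) ℤ), Good M → FixedAbove ((m : ℕ) + 1) M →
      M m m = 1 → (∀ b : Fin n, (b : ℕ) < m → M m b = 0) → (∑ b, (M m b).natAbs = N) → M ∈ T := by
  intro N
  induction N using Nat.strong_induction_on with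
  | _ N ih =>
    intro M hM hF h1 h0 hN
    by_cases hall : ∀ b, b ≠ m → M m b = 0
    · apply IH M hM
      intro l hl b
      rcases Nat.lt_or_ge (m : ℕ) l with hlm | hlm
      · exact hF l hlm b
      · have : l = m := Fin.ext (le_antisymm hlm hl)
        subst this
        by_cases hb : b = l
        · subst hb; rw [if_pos rfl]; exact h1
        · rw [if_neg hb]; exact hall b hb
    · push Not at hall
      have hsum : ∑ b ∈ univ.erase m, M m b = 0 := by
        have := hM.row m
        rw [← Finset.add_sum_erase _ _ (mem_univ m), h1] at this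
        linarith
      obtain ⟨b0, hb0, hb0'⟩ := hall
      obtain ⟨b1, hb1, hb1'⟩ : ∃ b ∈ univ.erase m, 0 < M m b := by
        by_contra hcon
        push Not at hcon
        have := (Finset.sum_eq_zero_iff_of_nonpos hcon).mp hsum b0 (by simp [hb0])
        exact hb0' this
      obtain ⟨b2, hb2, hb2'⟩ : ∃ b ∈ univ.erase m, M m b < 0 := by
        by_contra hcon
        push Not at hcon
        have := (Finset.sum_eq_zero_iff_of_nonneg hcon).mp hsum b0 (by simp [hb0])
        exact hb0' this
      have e1 : b1 ≠ m := by simpa using hb1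
      have e2 : b2 ≠ m := by simpa using hb2
      have e12 : b1 ≠ b2 := by
        rintro rfl
        omega
      have d1 := hM.off m b1 e1.symm
      have d2 := hM.off m b2 e2.symm
      apply mem_of_mul hT e2.symm
      apply mem_of_mul hT e1.symm
      have hent : ∀ b, (M * rMat m b2 * rMat m b1) m b =
          if b = b1 then M m b1 - 2 else if b = b2 then M m b2 + 2 else M m b := by
        intro b
        rw [BurauCore.mul_rMat _ e1.symm, BurauCore.mul_rMat _ e2.symm,
          BurauCore.mul_rMat _ e2.symm, BurauCore.mul_rMat _ e2.symm]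
        by_cases hbm : b = m
        · subst hbm
          simp [e1.symm, e2.symm]
        · by_cases hbb1 : b = b1
          · subst hbb1
            simp [hbm, h1, e12]; ring
          · by_cases hbb2 : b = b2
            · subst hbb2
              simp [hbm, hbb1, h1]
            · simp [hbm, hbb1, hbb2]
      refine ih (∑ b, ((M * rMat m b2 * rMat m b1) m b).natAbs) ?_ _
        ((hM.mul_rMat e2.symm).mul_rMat e1.symm)
        ((hF.mul_rMat e2.symm (Nat.lt_succ_self _)).mul_rMat e1.symm (Nat.lt_succ_self _))
        ?_ ?_ rfl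
      · rw [← hN]
        apply Finset.sum_lt_sum
        · intro b _
          rw [hent]
          split_ifs with h3 h4
          · subst h3; omega
          · subst h4; omega
          · exact le_rfl
        · refine ⟨b1, mem_univ _, ?_⟩
          rw [hent, if_pos rfl]
          omega
      · rw [hent, if_neg e1.symm, if_neg e2.symm, h1]
      · intro b hb
        rw [hent]
        have hb1v : b ≠ b1 := by
          rintro rfl
          have := h0 b hb
          omega
        have hb2v : b ≠ b2 := by
          rintro rfl
          have := h0 b hb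
          omega
        rw [if_neg hb1v, if_neg hb2v, h0 b hb]

/-- A common divisor of the first entries of the row `m` is a unit. -/
lemma unit_of_dvd {M : Matrix (Fin n) (Fin n) ℤ} (hM : Good M) (m : Fin n)
    (hF : FixedAbove ((m : ℕ) + 1) M) (a : ℤ) (ha : ∀ b : Fin n, (b : ℕ) ≤ m → a ∣ M m b) :
    a ∣ 1 := by
  obtain ⟨N, hN⟩ := hM.inv
  have h1 : (M * N) m m = 1 := by rw [hN, Matrix.one_apply_eq]
  rw [← h1, Matrix.mul_apply]
  apply Finset.dvd_sum
  intro b _
  rcases Nat.lt_or_ge (m : ℕ) b with hb | hb
  · have h2 : (M * N) b m = 0 := by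
      rw [hN, Matrix.one_apply_ne]
      rintro rfl
      omega
    rw [Matrix.mul_apply, Finset.sum_eq_single b] at h2
    · rw [hF b hb b, if_pos rfl, one_mul] at h2
      rw [h2, mul_zero]
      exact dvd_zero _
    · intro c _ hc
      rw [hF b hb c, if_neg hc, zero_mul]
    · simp
  · exact Dvd.dvd.mul_right (ha b hb) _

lemma euclid_row (hT : ∀ i j : Fin n, i ≠ j → rMat i j ∈ T) (m z : Fin n) (hz : (m : ℕ) < z)
    (IH : ∀ M, Good M → FixedAbove (m : ℕ) M → M ∈ T) :
    ∀ (N : ℕ) (M : Matrix (Fin n) (Fin n) ℤ), Good M → FixedAbove ((m : ℕ) + 1) M →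
      (∑ b ∈ univ.filter (fun b : Fin n => (b : ℕ) ≤ m), (M m b).natAbs = N) → M ∈ T := by
  intro N
  induction N using Nat.strong_induction_on with
  | _ N ih =>
    intro M hM hF hN
    have hzm : ∀ i : Fin n, (i : ℕ) ≤ m → i ≠ z := by
      rintro i hi rfl
      omega
    by_cases h : ∃ i j : Fin n, (i : ℕ) ≤ m ∧ (j : ℕ) ≤ m ∧ M m i ≠ 0 ∧
        (M m i).natAbs < (M m j).natAbs
    · obtain ⟨i, j, hi, hj, hi0, hlt⟩ := h
      have hij : i ≠ j := by
        rintro rfl
        omega
      by_cases hs : M m i * M m j < 0
      · apply mem_of_mul hT hij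
        have habs : (M m j + 2 * M m i).natAbs < (M m j).natAbs := by
          rcases mul_neg_iff.mp hs with ⟨h1, h2⟩ | ⟨h1, h2⟩ <;> omega
        refine ih (∑ b ∈ univ.filter (fun b : Fin n => (b : ℕ) ≤ m),
          ((M * rMat i j) m b).natAbs) ?_ _ (hM.mul_rMat hij)
          (hF.mul_rMat hij (Nat.lt_succ_of_le hi)) rfl
        rw [← hN]
        apply Finset.sum_lt_sum
        · intro b _
          rw [BurauCore.mul_rMat _ hij]
          split_ifs with h3 h4
          · subst h3; omega
          · subst h4; omega
          · exact le_rfl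
        · refine ⟨j, Finset.mem_filter.mpr ⟨mem_univ _, hj⟩, ?_⟩
          rw [BurauCore.mul_rMat _ hij, if_neg hij.symm, if_pos rfl]
          exact habs
      · have hiz := hzm i hi
        have hjz := hzm j hj
        have habs : (M m j - 2 * M m i).natAbs < (M m j).natAbs := by
          rcases lt_or_gt_of_ne hi0 with h1 | h1
          · have h2 : M m j ≤ 0 := by
              by_contra h3
              exact hs (mul_neg_of_neg_of_pos h1 (by omega))
            omega
          · have h2 : 0 ≤ M m j := by
              by_contra h3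
              exact hs (mul_neg_of_pos_of_neg h1 (by omega))
            omega
        have hent : ∀ b : Fin n, (b : ℕ) ≤ m → (M * rMat i z * rMat i j) m b =
            if b = j then M m j - 2 * M m i else M m b := by
          intro b hb
          rw [BurauCore.mul_rMat _ hij, BurauCore.mul_rMat _ hiz, BurauCore.mul_rMat _ hiz,
            BurauCore.mul_rMat _ hiz]
          have hbz := hzm b hb
          by_cases hbi : b = i
          · subst hbi
            simp [hij]
          · by_cases hbj : b = j
            · subst hbj
              simp [hbi, hbz]; ring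
            · simp [hbi, hbj, hbz]
        apply mem_of_mul hT hiz
        apply mem_of_mul hT hij
        refine ih (∑ b ∈ univ.filter (fun b : Fin n => (b : ℕ) ≤ m),
          ((M * rMat i z * rMat i j) m b).natAbs) ?_ _ ((hM.mul_rMat hiz).mul_rMat hij)
          ((hF.mul_rMat hiz (Nat.lt_succ_of_le hi)).mul_rMat hij (Nat.lt_succ_of_le hi)) rfl
        rw [← hN]
        apply Finset.sum_lt_sum
        · intro b hb
          rw [hent b (by simpa using hb)]
          split_ifs with h3
          · subst h3; omega
          · exact le_rfl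
        · refine ⟨j, Finset.mem_filter.mpr ⟨mem_univ _, hj⟩, ?_⟩
          rw [hent j hj, if_pos rfl]
          exact habs
    · push Not at h
      have hm0 : M m m ≠ 0 := by
        intro h0
        exact hM.diag m (by rw [h0]; exact dvd_zero _)
      have hcase : ∀ b : Fin n, (b : ℕ) ≤ m → M m b = 0 ∨ (M m b).natAbs = (M m m).natAbs := by
        intro b hb
        by_cases h0 : M m b = 0
        · exact Or.inl h0
        · exact Or.inr (le_antisymm (h m b le_rfl hb hm0) (h b m hb le_rfl h0))
      have hdvd : M m m ∣ 1 := by
        apply unit_of_dvd hM m hF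
        intro b hb
        rcases hcase b hb with h0 | h0
        · rw [h0]; exact dvd_zero _
        · exact Int.natAbs_dvd_natAbs.mp (by rw [h0])
      have hunit : (M m m).natAbs = 1 := Int.isUnit_iff_natAbs_eq.mp (isUnit_of_dvd_one hdvd)
      have hzero : ∀ b : Fin n, (b : ℕ) < m → M m b = 0 := by
        intro b hb
        rcases hcase b hb.le with h0 | h0
        · exact h0
        · exfalso
          have := hM.off m b (by rintro rfl; omega)
          omega
      rcases Int.natAbs_eq_iff.mp hunit with h1 | h1
      · exact clear_row hT m IH _ M hM hF (by simpa using h1) hzero rfl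
      · have hmz := hzm m le_rfl
        apply mem_of_mul hT hmz
        refine clear_row hT m IH _ _ (hM.mul_rMat hmz) (hF.mul_rMat hmz (Nat.lt_succ_self _))
          ?_ ?_ rfl
        · rw [BurauCore.mul_rMat _ hmz, if_pos rfl, h1]; norm_num
        · intro b hb
          rw [BurauCore.mul_rMat _ hmz, if_neg (by rintro rfl; omega), if_neg (hzm b hb.le)]
          exact hzero b hb

lemma last_row (hT : ∀ i j : Fin n, i ≠ j → rMat i j ∈ T) (m : Fin n)
    (hm : ∀ b : Fin n, (b : ℕ) ≤ m)
    (IH : ∀ M, Good M → FixedAbove (m : ℕ) M → M ∈ T) :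
    ∀ (N : ℕ) (M : Matrix (Fin n) (Fin n) ℤ), Good M →
      (∑ b, (M m b).natAbs = N) → M ∈ T := by
  intro N
  induction N using Nat.strong_induction_on with
  | _ N ih =>
    intro M hM hN
    by_cases h : ∃ i j : Fin n, M m i * M m j < 0 ∧ (M m i).natAbs < (M m j).natAbs
    · obtain ⟨i, j, hs, hlt⟩ := h
      have hij : i ≠ j := by
        rintro rfl
        omega
      apply mem_of_mul hT hij
      have habs : (M m j + 2 * M m i).natAbs < (M m j).natAbs := by
        rcases mul_neg_iff.mp hs with ⟨h1, h2⟩ | ⟨h1, h2⟩ <;> omega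
      refine ih (∑ b, ((M * rMat i j) m b).natAbs) ?_ _ (hM.mul_rMat hij) rfl
      rw [← hN]
      apply Finset.sum_lt_sum
      · intro b _
        rw [BurauCore.mul_rMat _ hij]
        split_ifs with h3 h4
        · subst h3; omega
        · subst h4; omega
        · exact le_rfl
      · refine ⟨j, mem_univ _, ?_⟩
        rw [BurauCore.mul_rMat _ hij, if_neg hij.symm, if_pos rfl]
        exact habs
    · push Not at h
      have hnonneg : ∀ b, 0 ≤ M m b := by
        by_contra hcon
        push Not at hcon
        obtain ⟨i, hi⟩ := hcon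
        obtain ⟨j, hj⟩ : ∃ j, 0 < M m j := by
          by_contra hcon
          push Not at hcon
          have := Finset.sum_nonpos (s := univ) (fun b _ => hcon b)
          rw [hM.row m] at this
          omega
        have hj' : ∀ j, 0 < M m j → (M m j).natAbs = (M m i).natAbs := by
          intro j hj
          exact le_antisymm (h i j (mul_neg_of_neg_of_pos hi hj))
            (h j i (mul_neg_of_pos_of_neg hj hi))
        have hi' : ∀ b, M m b < 0 → (M m b).natAbs = (M m i).natAbs := by
          intro b hb
          rw [← hj' j hj]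
          exact le_antisymm (h j b (mul_neg_of_pos_of_neg hj hb))
            (h b j (mul_neg_of_neg_of_pos hb hj))
        have hdvd : M m i ∣ 1 := by
          rw [← hM.row m]
          apply Finset.dvd_sum
          intro b _
          rcases lt_trichotomy (M m b) 0 with h1 | h1 | h1
          · exact Int.natAbs_dvd_natAbs.mp (by rw [hi' b h1])
          · rw [h1]; exact dvd_zero _
          · exact Int.natAbs_dvd_natAbs.mp (by rw [hj' b h1])
        have hunit : (M m i).natAbs = 1 := Int.isUnit_iff_natAbs_eq.mp (isUnit_of_dvd_one hdvd)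
        have hjm : j = m := by
          by_contra hne
          have h1 := hM.off m j (Ne.symm hne)
          have h2 := hj' j hj
          omega
        have him : i = m := by
          by_contra hne
          have h1 := hM.off m i (Ne.symm hne)
          omega
        subst hjm
        subst him
        omega
      have hmpos : 1 ≤ M m m := by
        have h1 := hnonneg m
        have h2 := hM.diag m
        rcases h1.lt_or_eq with h3 | h3
        · omega
        · exact absurd (by rw [← h3]; exact dvd_zero _) h2
      have hrest : ∀ b ∈ univ.erase m, M m b = 0 := by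
        have hsum := hM.row m
        rw [← Finset.add_sum_erase _ _ (mem_univ m)] at hsum
        have hs0 : 0 ≤ ∑ b ∈ univ.erase m, M m b := Finset.sum_nonneg (fun b _ => hnonneg b)
        exact (Finset.sum_eq_zero_iff_of_nonneg (fun b _ => hnonneg b)).mp (by omega)
      have hm1 : M m m = 1 := by
        have hsum := hM.row m
        rw [← Finset.add_sum_erase _ _ (mem_univ m), Finset.sum_eq_zero hrest, add_zero] at hsum
        exact hsum
      apply IH M hM
      intro l hl b
      have : l = m := Fin.ext (le_antisymm (hm l) hl)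
      subst this
      by_cases hb : b = l
      · subst hb; rw [if_pos rfl]; exact hm1
      · rw [if_neg hb]; exact hrest b (by simp [hb])

lemma fixed_mem (hT : ∀ i j : Fin n, i ≠ j → rMat i j ∈ T) :
    ∀ k : ℕ, k ≤ n → ∀ M : Matrix (Fin n) (Fin n) ℤ, Good M → FixedAbove k M → M ∈ T := by
  intro k
  induction k with
  | zero =>
    intro _ M _ hF
    have : M = 1 := by
      ext a b
      rw [hF a (Nat.zero_le _) b, Matrix.one_apply]
      by_cases h : a = b
      · subst h; simp
      · rw [if_neg h, if_neg (Ne.symm h)]
    rw [this]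
    exact T.one_mem
  | succ k ih =>
    intro hk M hM hF
    rcases Nat.lt_or_ge (k + 1) n with hlt | hge
    · exact euclid_row hT ⟨k, by omega⟩ ⟨k + 1, hlt⟩ (Nat.lt_succ_self _)
        (fun M hM hF => ih (by omega) M hM hF) _ M hM hF rfl
    · exact last_row hT ⟨k, by omega⟩ (fun b => by
        have := b.2
        simp only
        omega) (fun M hM hF => ih (by omega) M hM hF) _ M hM rfl

theorem good_mem (hT : ∀ i j : Fin n, i ≠ j → rMat i j ∈ T) (M : Matrix (Fin n) (Fin n) ℤ)
    (hM : Good M) : M ∈ T :=
  fixed_mem hT n le_rfl M hM (fun l hl => absurd l.2 (by omega))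

end Q3.BurauCore
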