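import Mathlib

/-! Restricted enveloping algebras in characteristic 2, presented by generators and relations,
as Hopf algebras with primitive generators. -/

set_option autoImplicit false

namespace Q3.PrimHopf

open TensorProduct

/-- structure constants: `c i j` are the coefficients of `[i, j]`, `d i` those of `i ^ 2` -/
structure Data (k : Type) (X : Type) where
  c : X → X → X → k
  d : X → X → k

variable {k : Type} [Field k] {X : Type} [Fintype X]

/-- the defining relations -/
inductive Rel (D : Data k X) : FreeAlgebra k X → FreeAlgebra k X → Prop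
  | br (i j : X) : Rel D (FreeAlgebra.ι k i * FreeAlgebra.ι k j + FreeAlgebra.ι k j *
      FreeAlgebra.ι k i) (∑ l, D.c i j l • FreeAlgebra.ι k l)
  | sq (i : X) : Rel D (FreeAlgebra.ι k i * FreeAlgebra.ι k i) (∑ l, D.d i l • FreeAlgebra.ι k l)

/-- the restricted enveloping algebra -/
def U (D : Data k X) : Type := RingQuot (Rel D)

noncomputable instance (D : Data k X) : Ring (U D) := inferInstanceAs (Ring (RingQuot (Rel D)))

noncomputable instance (D : Data k X) : Algebra k (U D) :=
  inferInstanceAs (Algebra k (RingQuot (Rel D)))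

variable {D : Data k X}

/-- the generators -/
noncomputable def z (D : Data k X) (i : X) : U D :=
  RingQuot.mkAlgHom k (Rel D) (FreeAlgebra.ι k i)

theorem z_br (i j : X) : z D i * z D j + z D j * z D i = ∑ l, D.c i j l • z D l := by
  have := RingQuot.mkAlgHom_rel k (Rel.br (D := D) i j)
  simp only [map_add, map_mul, map_sum, map_smul] at this
  exact this

theorem z_sq (i : X) : z D i * z D i = ∑ l, D.d i l • z D l := by
  have := RingQuot.mkAlgHom_rel k (Rel.sq (D := D) i)
  simp only [map_mul, map_sum, map_smul] at this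
  exact this

/-- universal property -/
noncomputable def lift {B : Type*} [Ring B] [Algebra k B] (f : X → B)
    (h1 : ∀ i j, f i * f j + f j * f i = ∑ l, D.c i j l • f l)
    (h2 : ∀ i, f i * f i = ∑ l, D.d i l • f l) : U D →ₐ[k] B :=
  RingQuot.liftAlgHom k ⟨FreeAlgebra.lift k f, by
    intro x y hxy
    cases hxy with
    | br i j =>
      have := h1 i j
      simpa [map_sum] using this
    | sq i =>
      have := h2 i
      simpa [map_sum] using this⟩

theorem lift_z {B : Type*} [Ring B] [Algebra k B] (f : X → B) (h1) (h2) (i : X) :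
    lift (D := D) f h1 h2 (z D i) = f i := by
  have : lift (D := D) f h1 h2 (z D i) = FreeAlgebra.lift k f (FreeAlgebra.ι k i) :=
    RingQuot.liftAlgHom_mkAlgHom_apply _ _ _ _
  rw [this, FreeAlgebra.lift_ι_apply]

theorem induct {P : U D → Prop} (ha : ∀ r : k, P (algebraMap k (U D) r)) (hz : ∀ i, P (z D i))
    (hm : ∀ a b, P a → P b → P (a * b)) (hp : ∀ a b, P a → P b → P (a + b)) (h : U D) : P h := by
  obtain ⟨x, rfl⟩ := RingQuot.mkAlgHom_surjective k (Rel D) h
  induction x using FreeAlgebra.induction with
  | grade0 r => rw [AlgHom.commutes]; exact ha r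
  | grade1 g => exact hz g
  | mul a b ha hb => rw [map_mul]; exact hm _ _ ha hb
  | add a b ha hb => rw [map_add]; exact hp _ _ ha hb

theorem ext {B : Type*} [Semiring B] [Algebra k B] {f g : U D →ₐ[k] B}
    (h : ∀ i, f (z D i) = g (z D i)) : f = g := by
  refine AlgHom.ext fun x => ?_
  induction x using induct with
  | ha r => simp
  | hz x => exact h x
  | hm a b ha hb => rw [map_mul, map_mul, ha, hb]
  | hp a b ha hb => rw [map_add, map_add, ha, hb]

/-- a subspace containing `1` and stable under left multiplication by the generators is all -/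
theorem eq_top_of_left (M : Submodule k (U D)) (h1 : (1 : U D) ∈ M)
    (h : ∀ i, ∀ a ∈ M, z D i * a ∈ M) : M = ⊤ := by
  have key : ∀ b : U D, ∀ a ∈ M, b * a ∈ M := by
    intro b
    induction b using induct with
    | ha r =>
      intro a ha
      rw [← Algebra.smul_def]
      exact M.smul_mem r ha
    | hz i => exact h i
    | hm b c hb hc =>
      intro a ha
      rw [mul_assoc]
      exact hb _ (hc a ha)
    | hp b c hb hc =>
      intro a ha
      rw [add_mul]
      exact M.add_mem (hb a ha) (hc a ha)
  rw [eq_top_iff]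
  intro b _
  have := key b 1 h1
  rwa [mul_one] at this

variable [CharP k 2]

theorem two_zero {V : Type*} [AddCommGroup V] [Module k V] (v : V) : v + v = 0 := by
  rw [← two_smul k v, CharTwo.two_eq_zero, zero_smul]

theorem neg_self' {V : Type*} [AddCommGroup V] [Module k V] (v : V) : -v = v := by
  rw [neg_eq_iff_add_eq_zero]
  exact two_zero (k := k) v

/-- the comultiplication -/
noncomputable def comulU : U D →ₐ[k] U D ⊗[k] U D :=
  lift (fun i => z D i ⊗ₜ 1 + 1 ⊗ₜ z D i)
    (fun i j => by
      have e : (z D i ⊗ₜ[k] (1 : U D) + 1 ⊗ₜ z D i) * (z D j ⊗ₜ 1 + 1 ⊗ₜ z D j)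
          + (z D j ⊗ₜ 1 + 1 ⊗ₜ z D j) * (z D i ⊗ₜ 1 + 1 ⊗ₜ z D i)
          = (z D i * z D j + z D j * z D i) ⊗ₜ[k] (1 : U D)
            + 1 ⊗ₜ (z D i * z D j + z D j * z D i)
            + ((z D i ⊗ₜ z D j + z D j ⊗ₜ z D i) + (z D i ⊗ₜ z D j + z D j ⊗ₜ z D i)) := by
        simp only [mul_add, add_mul, Algebra.TensorProduct.tmul_mul_tmul, mul_one, one_mul,
          TensorProduct.add_tmul, TensorProduct.tmul_add]
        abel
      rw [e, two_zero (k := k), add_zero, z_br, TensorProduct.sum_tmul, TensorProduct.tmul_sum,
        ← Finset.sum_add_distrib]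
      apply Finset.sum_congr rfl
      intro l _
      rw [smul_add, TensorProduct.smul_tmul', TensorProduct.tmul_smul])
    (fun i => by
      have e : (z D i ⊗ₜ[k] (1 : U D) + 1 ⊗ₜ z D i) * (z D i ⊗ₜ 1 + 1 ⊗ₜ z D i)
          = (z D i * z D i) ⊗ₜ[k] (1 : U D) + 1 ⊗ₜ (z D i * z D i)
            + (z D i ⊗ₜ z D i + z D i ⊗ₜ z D i) := by
        simp only [mul_add, add_mul, Algebra.TensorProduct.tmul_mul_tmul, mul_one, one_mul]
        abel
      rw [e, two_zero (k := k), add_zero, z_sq, TensorProduct.sum_tmul, TensorProduct.tmul_sum,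
        ← Finset.sum_add_distrib]
      apply Finset.sum_congr rfl
      intro l _
      rw [smul_add, TensorProduct.smul_tmul', TensorProduct.tmul_smul])

theorem comulU_z (i : X) : comulU (z D i) = z D i ⊗ₜ[k] 1 + 1 ⊗ₜ z D i := lift_z _ _ _ _

/-- the counit -/
noncomputable def counitU : U D →ₐ[k] k := lift (fun _ => 0) (by simp) (by simp)

omit [CharP k 2] in
theorem counitU_z (i : X) : counitU (z D i) = 0 := lift_z _ _ _ _

/-- the antipode as a map to the opposite algebra -/
noncomputable def antiU : U D →ₐ[k] (U D)ᵐᵒᵖ :=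
  lift (fun i => MulOpposite.op (z D i))
    (fun i j => by
      apply MulOpposite.unop_injective
      simp only [MulOpposite.unop_add, MulOpposite.unop_mul, MulOpposite.unop_op]
      rw [add_comm, z_br]
      simp)
    (fun i => by
      apply MulOpposite.unop_injective
      simp only [MulOpposite.unop_mul, MulOpposite.unop_op]
      rw [z_sq]
      simp)

omit [CharP k 2] in
theorem antiU_z (i : X) : antiU (z D i) = MulOpposite.op (z D i) := lift_z _ _ _ _

/-- the antipode -/
noncomputable def antipodeU : U D →ₗ[k] U D :=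
  (MulOpposite.opLinearEquiv k).symm.toLinearMap ∘ₗ antiU.toLinearMap

omit [CharP k 2] in
theorem antipodeU_z (i : X) : antipodeU (z D i) = z D i := by
  simp [antipodeU, antiU_z]

omit [CharP k 2] in
theorem antipodeU_mul (a b : U D) : antipodeU (a * b) = antipodeU b * antipodeU a := by
  simp [antipodeU]

omit [CharP k 2] in
theorem antipodeU_algebraMap (r : k) :
    antipodeU (algebraMap k (U D) r) = algebraMap k (U D) r := by
  simp [antipodeU]

omit [CharP k 2] in
theorem antipodeU_one : antipodeU (1 : U D) = 1 := by
  have := antipodeU_algebraMap (D := D) 1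
  simpa using this

noncomputable instance bialgU : Bialgebra k (U D) :=
  Bialgebra.ofAlgHom comulU counitU
    (by
      apply ext
      intro i
      simp [comulU_z, TensorProduct.tmul_add, TensorProduct.add_tmul,
        Algebra.TensorProduct.one_def]
      abel)
    (by
      apply ext
      intro i
      simp [comulU_z, counitU_z])
    (by
      apply ext
      intro i
      simp [comulU_z, counitU_z])

theorem comul_eq (h : U D) : Coalgebra.comul (R := k) h = comulU h := rfl

theorem counit_eq (h : U D) : Coalgebra.counit (R := k) h = counitU h := rfl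

/-- left convolution evaluation -/
noncomputable def FL : U D ⊗[k] U D →ₗ[k] U D := LinearMap.mul' k (U D) ∘ₗ antipodeU.rTensor (U D)

/-- right convolution evaluation -/
noncomputable def FR : U D ⊗[k] U D →ₗ[k] U D := LinearMap.mul' k (U D) ∘ₗ antipodeU.lTensor (U D)

omit [CharP k 2] in
theorem FL_tmul (a b : U D) : FL (a ⊗ₜ b) = antipodeU a * b := by simp [FL]

omit [CharP k 2] in
theorem FR_tmul (a b : U D) : FR (a ⊗ₜ b) = a * antipodeU b := by simp [FR]

omit [CharP k 2] in
theorem FL_mul_tmul (u : U D ⊗[k] U D) (a b : U D) :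
    FL (u * (a ⊗ₜ b)) = antipodeU a * FL u * b := by
  induction u with
  | zero => simp
  | tmul c d =>
    rw [Algebra.TensorProduct.tmul_mul_tmul, FL_tmul, FL_tmul, antipodeU_mul]; noncomm_ring
  | add x y hx hy => rw [add_mul, map_add, hx, hy, map_add]; noncomm_ring

omit [CharP k 2] in
theorem FR_tmul_mul (u : U D ⊗[k] U D) (a b : U D) :
    FR ((a ⊗ₜ b) * u) = a * FR u * antipodeU b := by
  induction u with
  | zero => simp
  | tmul c d =>
    rw [Algebra.TensorProduct.tmul_mul_tmul, FR_tmul, FR_tmul, antipodeU_mul]; noncomm_ring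
  | add x y hx hy => rw [mul_add, map_add, hx, hy, map_add]; noncomm_ring

omit [CharP k 2] in
theorem FL_mul (u v : U D ⊗[k] U D) (r : k) (hu : FL u = algebraMap k (U D) r) :
    FL (u * v) = r • FL v := by
  induction v with
  | zero => simp
  | tmul a b =>
    rw [FL_mul_tmul, hu, FL_tmul, Algebra.algebraMap_eq_smul_one]
    simp
  | add x y hx hy => rw [mul_add, map_add, hx, hy, map_add, smul_add]

omit [CharP k 2] in
theorem FR_mul (u v : U D ⊗[k] U D) (r : k) (hv : FR v = algebraMap k (U D) r) :
    FR (u * v) = r • FR u := by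
  induction u with
  | zero => simp
  | tmul a b =>
    rw [FR_tmul_mul, hv, FR_tmul, Algebra.algebraMap_eq_smul_one]
    simp
  | add x y hx hy => rw [add_mul, map_add, hx, hy, map_add, smul_add]

theorem FL_comul (h : U D) : FL (comulU h) = algebraMap k (U D) (counitU h) := by
  induction h using induct with
  | ha r =>
    rw [AlgHom.commutes, AlgHom.commutes, Algebra.TensorProduct.algebraMap_apply, FL_tmul,
      antipodeU_algebraMap]
    simp
  | hz i =>
    rw [comulU_z, map_add, counitU_z, FL_tmul, FL_tmul, antipodeU_z, antipodeU_one, mul_one,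
      one_mul, map_zero]
    exact two_zero (k := k) _
  | hm a b ha hb =>
    rw [map_mul, FL_mul _ _ _ ha, hb, map_mul, map_mul]
    rw [Algebra.smul_def]
  | hp a b ha hb => simp only [map_add, ha, hb]

theorem FR_comul (h : U D) : FR (comulU h) = algebraMap k (U D) (counitU h) := by
  induction h using induct with
  | ha r =>
    rw [AlgHom.commutes, AlgHom.commutes, Algebra.TensorProduct.algebraMap_apply, FR_tmul]
    simp [antipodeU_one]
  | hz i =>
    rw [comulU_z, map_add, counitU_z, FR_tmul, FR_tmul, antipodeU_z, antipodeU_one, mul_one,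
      one_mul, map_zero]
    exact two_zero (k := k) _
  | hm a b ha hb =>
    rw [map_mul, FR_mul _ _ _ hb, ha, map_mul, map_mul]
    rw [Algebra.smul_def, ← map_mul, mul_comm]
    simp
  | hp a b ha hb => simp only [map_add, ha, hb]

noncomputable instance hopfU : HopfAlgebra k (U D) where
  antipode := antipodeU
  mul_antipode_rTensor_comul := by
    apply LinearMap.ext
    intro h
    exact FL_comul h
  mul_antipode_lTensor_comul := by
    apply LinearMap.ext
    intro h
    exact FR_comul h

end Q3.PrimHopf
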