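import Mathlib

/-! Small faithful acts for a variant of rank 2 of the full transformation semigroup. -/

set_option autoImplicit false

namespace Q3.VariantAct

/-- the data of the construction -/
structure Dat where
  X : Type
  p0 : X
  p1 : X
  cl : X → Bool
  cl0 : cl p0 = false
  cl1 : cl p1 = true
  H : Type
  h : Bool → X → H
  h_inj : ∀ u v, (∀ c, h c u = h c v) → u = v
  K : Type
  J : Type
  pt : J → K → X
  pt_cov : ∀ i, i ≠ p0 → i ≠ p1 → ∃ j l, pt j l = i
  T : Type
  F : Type
  t0 : T
  enc : (X → X) → T → F
  enc_inj : ∀ x y, enc x = enc y → ∀ i, i ≠ p0 → i ≠ p1 → x i = y i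

/-- the states -/
inductive Om (d : Dat) : Type
  | coord (c : Bool) (b : Bool) (v : d.H)
  | star (c : Bool)
  | zero
  | dd (t : d.K → Bool)
  | ee (t : d.K → Bool)
  | src (j : d.J)
  | free (t : d.T)
  | sink (f : d.F)

variable (d : Dat)

/-- the two points of the image of the sandwich element -/
def al (b : Bool) : d.X := if b then d.p1 else d.p0

lemma cl_al (b : Bool) : d.cl (al d b) = b := by
  cases b
  · simp [al, d.cl0]
  · simp [al, d.cl1]

/-- the sandwich product, maps written on the right: first `x`, then `a`, then `y` -/
def star (x y : d.X → d.X) : d.X → d.X := fun i => y (al d (d.cl (x i)))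

/-- at most two values -/
def R2 (x : d.X → d.X) : Prop := ∃ u v, ∀ i, x i = u ∨ x i = v

lemma R2_star (x y : d.X → d.X) : R2 d (star d x y) := by
  refine ⟨y (al d false), y (al d true), fun i => ?_⟩
  unfold star
  cases d.cl (x i)
  · exact Or.inl rfl
  · exact Or.inr rfl

open Classical in
/-- class of the other value -/
noncomputable def om (q : d.X → Bool) : Bool :=
  if q d.p0 ≠ q d.p1 then q d.p0 else if ∃ i, q i ≠ q d.p0 then !(q d.p0) else q d.p0

open Classical in
/-- the value seen by the star sources -/
noncomputable def V (x : d.X → d.X) : d.X :=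
  if R2 d x then
    (if x d.p0 ≠ x d.p1 then x d.p0 else
      if h : ∃ i, x i ≠ x d.p0 then x h.choose else x d.p0)
  else al d (om d (fun i => d.cl (x i)))

lemma V_star (x y : d.X → d.X) :
    V d (star d x y) = y (al d (om d (fun i => d.cl (x i)))) := by
  rw [V, if_pos (R2_star d x y)]
  by_cases hy : y (al d false) = y (al d true)
  · have hc : ∀ b b', y (al d b) = y (al d b') := by
      intro b b'
      cases b <;> cases b' <;> simp [hy]
    split_ifs with h1 h2
    · exact hc _ _
    · exact hc _ _
    · exact hc _ _
  · have hne : ∀ b b', y (al d b) = y (al d b') ↔ b = b' := by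
      intro b b'
      cases b <;> cases b'
      · simp
      · simp [hy]
      · simp [Ne.symm hy]
      · simp
    unfold om
    have e1 : (star d x y d.p0 ≠ star d x y d.p1) ↔ (d.cl (x d.p0) ≠ d.cl (x d.p1)) := by
      unfold star
      rw [ne_eq, hne]
    by_cases h1 : d.cl (x d.p0) ≠ d.cl (x d.p1)
    · rw [if_pos (e1.mpr h1), if_pos h1]
      rfl
    · rw [if_neg (fun h => h1 (e1.mp h)), if_neg h1]
      have e2 : (∃ i, star d x y i ≠ star d x y d.p0) ↔ ∃ i, d.cl (x i) ≠ d.cl (x d.p0) := by
        unfold star
        simp only [ne_eq, hne]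
      by_cases h2 : ∃ i, star d x y i ≠ star d x y d.p0
      · rw [dif_pos h2, if_pos (e2.mp h2)]
        have h3 := h2.choose_spec
        generalize h2.choose = i at h3
        unfold star at h3 ⊢
        rw [ne_eq, hne] at h3
        have : d.cl (x i) = !d.cl (x d.p0) := by
          revert h3
          cases d.cl (x i) <;> cases d.cl (x d.p0) <;> simp
        rw [this]
      · rw [dif_neg h2, if_neg (fun h => h2 (e2.mpr h))]
        rfl

lemma R2.tri {d : Dat} {x : d.X → d.X} (h : R2 d x) (i j k : d.X) :
    x i = x j ∨ x i = x k ∨ x j = x k := by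
  obtain ⟨u, v, huv⟩ := h
  rcases huv i with e | e <;> rcases huv j with e0 | e0 <;> rcases huv k with e1 | e1 <;>
    simp [e, e0, e1]

lemma cl_V (x : d.X → d.X) : d.cl (V d x) = om d (fun i => d.cl (x i)) := by
  by_cases hR : R2 d x
  · rw [V, if_pos hR]
    unfold om
    simp only
    by_cases h1 : x d.p0 ≠ x d.p1
    · rw [if_pos h1]
      by_cases h2 : d.cl (x d.p0) ≠ d.cl (x d.p1)
      · rw [if_pos h2]
      · rw [if_neg h2, if_neg]
        rintro ⟨i, hi⟩
        apply hi
        push Not at h2
        rcases hR.tri i d.p0 d.p1 with e | e | e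
        · rw [e]
        · rw [e, h2]
        · exact absurd e h1
    · rw [if_neg h1]
      push Not at h1
      rw [if_neg (by rw [h1]; exact fun h => h rfl)]
      by_cases h2 : ∃ i, x i ≠ x d.p0
      · rw [dif_pos h2]
        have h3 := h2.choose_spec
        generalize h2.choose = i at h3
        by_cases h4 : ∃ i, d.cl (x i) ≠ d.cl (x d.p0)
        · rw [if_pos h4]
          obtain ⟨j, hj⟩ := h4
          have hj' : x j ≠ x d.p0 := fun h => hj (by rw [h])
          have hji : x j = x i := by
            rcases hR.tri j i d.p0 with e | e | e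
            · exact e
            · exact absurd e hj'
            · exact absurd e h3
          rw [← hji]
          cases h5 : d.cl (x j) <;> cases h6 : d.cl (x d.p0) <;> simp_all
        · rw [if_neg h4]
          push Not at h4
          exact h4 i
      · rw [dif_neg h2, if_neg]
        rintro ⟨i, hi⟩
        exact h2 ⟨i, fun h => hi (by rw [h])⟩
  · rw [V, if_neg hR, cl_al]

lemma V_star' (x y : d.X → d.X) : V d (star d x y) = y (al d (d.cl (V d x))) := by
  rw [V_star, cl_V]

/-- the class pattern at the block `j`, relative to the point `p0` -/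
def Tq (x : d.X → d.X) (j : d.J) : d.K → Bool :=
  fun l => xor (d.cl (x (d.pt j l))) (d.cl (x d.p0))

open Classical in
/-- the value pattern at the block `j`, relative to the point `p0` -/
noncomputable def Tx (x : d.X → d.X) (j : d.J) : d.K → Bool :=
  fun l => if x (d.pt j l) = x d.p0 then false else true

/-- the empty pattern -/
def none : d.K → Bool := fun _ => false

open Classical in
/-- the action -/
noncomputable def act (x : d.X → d.X) : Om d → Om d
  | .coord c b _ => .coord c (d.cl (x (al d b))) (d.h c (x (al d b)))
  | .star c => .coord c (d.cl (V d x)) (d.h c (V d x))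
  | .zero => .zero
  | .dd t => if x d.p0 = x d.p1 then .zero else if d.cl (x d.p0) = d.cl (x d.p1) then .ee t
      else .dd t
  | .ee _ => .zero
  | .src j => if Tq d x j ≠ none d then .dd (Tq d x j) else
      if Tx d x j ≠ none d then .ee (Tx d x j) else .zero
  | .free t => if R2 d x then .zero else .sink (d.enc x t)
  | .sink _ => .zero

lemma al_false : al d false = d.p0 := rfl
lemma al_true : al d true = d.p1 := rfl

lemma Tq_star (x y : d.X → d.X) (j : d.J) :
    Tq d (star d x y) j = if d.cl (y d.p0) = d.cl (y d.p1) then none d else Tq d x j := by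
  funext l
  unfold Tq star
  split_ifs with h
  · unfold none
    cases d.cl (x (d.pt j l)) <;> cases d.cl (x d.p0) <;> simp [al_false, al_true, h]
  · cases h4 : d.cl (x (d.pt j l)) <;> cases h5 : d.cl (x d.p0) <;>
      cases h1 : d.cl (y d.p0) <;> cases h2 : d.cl (y d.p1) <;>
      simp_all [al_false, al_true]

open Classical in
lemma Tx_star (x y : d.X → d.X) (j : d.J) :
    Tx d (star d x y) j = if y d.p0 = y d.p1 then none d else Tq d x j := by
  funext l
  unfold Tx star
  by_cases hy : y d.p0 = y d.p1
  · rw [if_pos hy]
    have hc : ∀ b b', y (al d b) = y (al d b') := by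
      intro b b'
      cases b <;> cases b' <;> simp [al_false, al_true, hy]
    rw [if_pos (hc _ _)]
    rfl
  · rw [if_neg hy]
    unfold Tq
    cases h4 : d.cl (x (d.pt j l)) <;> cases h5 : d.cl (x d.p0) <;>
      simp [al_false, al_true, hy, Ne.symm hy]

lemma act_star (x y : d.X → d.X) (p : Om d) : act d (star d x y) p = act d y (act d x p) := by
  cases p with
  | coord c b v => rfl
  | star c =>
    simp only [act]
    rw [V_star']
  | zero => rfl
  | dd t =>
    simp only [act]
    by_cases h1 : x d.p0 = x d.p1
    · rw [if_pos h1, if_pos (by unfold star; rw [h1])]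
    · rw [if_neg h1]
      by_cases h2 : d.cl (x d.p0) = d.cl (x d.p1)
      · rw [if_pos h2, if_pos (by unfold star; rw [h2])]
      · rw [if_neg h2]
        simp only
        cases h3 : d.cl (x d.p0) <;> cases h4 : d.cl (x d.p1)
        · exact absurd (h3.trans h4.symm) h2
        · have e0 : star d x y d.p0 = y d.p0 := by unfold star; rw [h3]; rfl
          have e1 : star d x y d.p1 = y d.p1 := by unfold star; rw [h4]; rfl
          rw [e0, e1]
        · have e0 : star d x y d.p0 = y d.p1 := by unfold star; rw [h3]; rfl
          have e1 : star d x y d.p1 = y d.p0 := by unfold star; rw [h4]; rfl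
          rw [e0, e1]
          by_cases hy : y d.p0 = y d.p1
          · simp [hy]
          · rw [if_neg hy, if_neg (Ne.symm hy)]
            by_cases hc : d.cl (y d.p0) = d.cl (y d.p1)
            · rw [if_pos hc, if_pos hc.symm]
            · rw [if_neg hc, if_neg (Ne.symm hc)]
        · exact absurd (h3.trans h4.symm) h2
  | ee t => rfl
  | src j =>
    simp only [act]
    rw [Tq_star, Tx_star]
    by_cases h1 : Tq d x j = none d
    · rw [h1, ite_self, ite_self]
      simp only [ne_eq, not_true_eq_false, if_false]
      split_ifs <;> rfl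
    · by_cases hc : d.cl (y d.p0) = d.cl (y d.p1)
      · rw [if_pos hc]
        simp only [ne_eq, not_true_eq_false, if_false, h1, not_false_eq_true, if_true]
        by_cases hy : y d.p0 = y d.p1
        · simp [hy]
        · simp [hy, h1, hc]
      · have hy : y d.p0 ≠ y d.p1 := fun h => hc (by rw [h])
        simp [hc, h1, hy]
  | free t =>
    simp only [act]
    rw [if_pos (R2_star d x y)]
    split_ifs <;> rfl
  | sink f => rfl

open Classical in
/-- the other value of a map with at most two values -/
lemma R2.other {d : Dat} {x : d.X → d.X} (h : R2 d x) (i : d.X) :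
    x i = x d.p0 ∨ x i = if x d.p0 ≠ x d.p1 then x d.p1 else V d x := by
  by_cases h1 : x d.p0 ≠ x d.p1
  · rw [if_pos h1]
    rcases h.tri i d.p0 d.p1 with e | e | e
    · exact Or.inl e
    · exact Or.inr e
    · exact absurd e h1
  · rw [if_neg h1, V, if_pos h, if_neg h1]
    by_cases h2 : ∃ i, x i ≠ x d.p0
    · rw [dif_pos h2]
      have h3 := h2.choose_spec
      generalize h2.choose = j at h3
      rcases h.tri i d.p0 j with e | e | e
      · exact Or.inl e
      · exact Or.inr e
      · exact absurd e.symm h3
    · push Not at h2
      exact Or.inl (h2 i)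

open Classical in
lemma Tx_apply (x : d.X → d.X) (j : d.J) (l : d.K) :
    Tx d x j l = if x (d.pt j l) = x d.p0 then false else true := rfl

/-- if the values have different classes then the two patterns agree -/
lemma Tq_eq_Tx {x : d.X → d.X} {W : d.X} (hW : ∀ i, x i = x d.p0 ∨ x i = W)
    (hc : d.cl W ≠ d.cl (x d.p0)) (j : d.J) : Tq d x j = Tx d x j := by
  funext l
  rw [Tx_apply, Tq]
  rcases hW (d.pt j l) with e | e
  · rw [e, if_pos rfl, Bool.xor_self]
  · have hne : W ≠ x d.p0 := fun h => hc (by rw [h])
    rw [e, if_neg hne]
    revert hc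
    cases d.cl W <;> cases d.cl (x d.p0) <;> simp

/-- if the values have the same class then the class pattern is empty -/
lemma Tq_eq_none {x : d.X → d.X} {W : d.X} (hW : ∀ i, x i = x d.p0 ∨ x i = W)
    (hc : d.cl W = d.cl (x d.p0)) (j : d.J) : Tq d x j = none d := by
  funext l
  rw [Tq, none]
  rcases hW (d.pt j l) with e | e
  · rw [e, Bool.xor_self]
  · rw [e, hc, Bool.xor_self]

/-- the action is faithful -/
lemma act_inj (x y : d.X → d.X) (hxy : ∀ p, act d x p = act d y p) : x = y := by
  classical
  have hal : ∀ b, x (al d b) = y (al d b) := by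
    intro b
    apply d.h_inj
    intro c
    have := hxy (.coord c b (d.h c (x (al d b))))
    simp only [act, Om.coord.injEq] at this
    exact this.2.2
  have h0 : x d.p0 = y d.p0 := hal false
  have h1 : x d.p1 = y d.p1 := hal true
  have hV : V d x = V d y := by
    apply d.h_inj
    intro c
    have := hxy (.star c)
    simp only [act, Om.coord.injEq] at this
    exact this.2.2
  have hfree := fun t => hxy (.free t)
  simp only [act] at hfree
  by_cases hx : R2 d x
  · by_cases hy : R2 d y
    · -- both have rank at most two
      set W := if x d.p0 ≠ x d.p1 then x d.p1 else V d x with hWdef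
      have hWx : ∀ i, x i = x d.p0 ∨ x i = W := hx.other
      have hWy : ∀ i, y i = y d.p0 ∨ y i = W := by
        intro i
        have := hy.other i
        rwa [← h0, ← h1, ← hV, ← hWdef, h0] at this
      have hsrc : ∀ j, Tx d x j = Tx d y j := by
        intro j
        have hj := hxy (.src j)
        simp only [act] at hj
        by_cases hc : d.cl W = d.cl (x d.p0)
        · rw [Tq_eq_none d hWx hc, Tq_eq_none d hWy (by rw [← h0]; exact hc)] at hj
          simp only [ne_eq, not_true_eq_false, if_false] at hj
          by_cases e1 : Tx d x j = none d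
          · by_cases e2 : Tx d y j = none d
            · rw [e1, e2]
            · simp [e1, e2] at hj
          · by_cases e2 : Tx d y j = none d
            · simp [e1, e2] at hj
            · simpa [e1, e2] using hj
        · rw [Tq_eq_Tx d hWx hc, Tq_eq_Tx d hWy (by rw [← h0]; exact hc)] at hj
          by_cases e1 : Tx d x j = none d
          · by_cases e2 : Tx d y j = none d
            · rw [e1, e2]
            · simp [e1, e2] at hj
          · by_cases e2 : Tx d y j = none d
            · simp [e1, e2] at hj
            · simpa [e1, e2] using hj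
      funext i
      by_cases hi0 : i = d.p0
      · rw [hi0, h0]
      · by_cases hi1 : i = d.p1
        · rw [hi1, h1]
        · obtain ⟨j, l, rfl⟩ := d.pt_cov i hi0 hi1
          have hjl := congrFun (hsrc j) l
          rw [Tx_apply, Tx_apply] at hjl
          by_cases e1 : x (d.pt j l) = x d.p0
          · by_cases e2 : y (d.pt j l) = y d.p0
            · rw [e1, e2, h0]
            · rw [if_pos e1, if_neg e2] at hjl
              exact absurd hjl (by decide)
          · by_cases e2 : y (d.pt j l) = y d.p0
            · rw [if_neg e1, if_pos e2] at hjl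
              exact absurd hjl (by decide)
            · rw [(hWx _).resolve_left e1, (hWy _).resolve_left e2]
    · exfalso
      have := hfree d.t0
      rw [if_pos hx, if_neg hy] at this
      cases this
  · by_cases hy : R2 d y
    · exfalso
      have := hfree d.t0
      rw [if_neg hx, if_pos hy] at this
      cases this
    · have henc : d.enc x = d.enc y := by
        funext t
        have := hfree t
        rw [if_neg hx, if_neg hy] at this
        simpa using this
      have := d.enc_inj x y henc
      funext i
      by_cases hi0 : i = d.p0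
      · rw [hi0, h0]
      · by_cases hi1 : i = d.p1
        · rw [hi1, h1]
        · exact this i hi0 hi1

/-- the states as a sum type -/
def omEquiv : Om d ≃ (Bool × Bool × d.H) ⊕ Bool ⊕ Unit ⊕ (d.K → Bool) ⊕ (d.K → Bool) ⊕ d.J ⊕ d.T ⊕
    d.F where
  toFun
    | .coord c b v => .inl (c, b, v)
    | .star c => .inr (.inl c)
    | .zero => .inr (.inr (.inl ()))
    | .dd t => .inr (.inr (.inr (.inl t)))
    | .ee t => .inr (.inr (.inr (.inr (.inl t))))
    | .src j => .inr (.inr (.inr (.inr (.inr (.inl j)))))
    | .free t => .inr (.inr (.inr (.inr (.inr (.inr (.inl t))))))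
    | .sink f => .inr (.inr (.inr (.inr (.inr (.inr (.inr f))))))
  invFun
    | .inl (c, b, v) => .coord c b v
    | .inr (.inl c) => .star c
    | .inr (.inr (.inl ())) => .zero
    | .inr (.inr (.inr (.inl t))) => .dd t
    | .inr (.inr (.inr (.inr (.inl t)))) => .ee t
    | .inr (.inr (.inr (.inr (.inr (.inl j))))) => .src j
    | .inr (.inr (.inr (.inr (.inr (.inr (.inl t)))))) => .free t
    | .inr (.inr (.inr (.inr (.inr (.inr (.inr f)))))) => .sink f
  left_inv p := by cases p <;> rfl
  right_inv p := by
    rcases p with ⟨c, b, v⟩ | c | ⟨⟩ | t | t | j | t | f <;> rfl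

end Q3.VariantAct
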